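import Pool.Agent.H118.G.R_seed8.Helper770.CrossingDefs

set_option autoImplicit false

namespace Pool.Agent.Helper770.Exist

open Pool.Agent.Helper770.Crossing

/-- Every finite graph has a drawing with finitely many crossings (points on a parabola). -/
theorem exists_drawing {V : Type*} [Fintype V] (G : SimpleGraph V) :
    ∃ D : Drawing G, D.crossings.Finite := by
  classical
  obtain ⟨φ, hφ⟩ : ∃ φ : V → ℝ, Function.Injective φ :=
    ⟨fun v => ((Fintype.equivFin V v : ℕ) : ℝ), fun x y h => by
      have h' : ((Fintype.equivFin V x : ℕ) : ℝ) = ((Fintype.equivFin V y : ℕ) : ℝ) := h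
      exact (Fintype.equivFin V).injective (Fin.ext (by exact_mod_cast h'))⟩
  let pos : V → ℂ := fun v => ⟨φ v, (φ v) ^ 2⟩
  let arc : Sym2 V → ℝ → ℂ := fun e t =>
    ⟨(1 - t) * φ e.out.1 + t * φ e.out.2, (1 - t) * (φ e.out.1) ^ 2 + t * (φ e.out.2) ^ 2⟩
  have hre : ∀ e t, (arc e t).re = φ e.out.1 + t * (φ e.out.2 - φ e.out.1) := by
    intro e t; simp only [arc]; ring
  have him : ∀ e t, (arc e t).im =
      (φ e.out.1 + φ e.out.2) * (arc e t).re - φ e.out.1 * φ e.out.2 := by
    intro e t; simp only [arc]; ring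
  have hne : ∀ e ∈ G.edgeSet, φ e.out.1 ≠ φ e.out.2 := by
    intro e he h
    have h' := hφ h
    have hd : ¬ e.IsDiag := G.not_isDiag_of_mem_edgeSet he
    apply hd
    have he' : s(e.out.1, e.out.2) = e := e.out_eq
    rw [← he', Sym2.mk_isDiag_iff]
    exact h'
  have hinj : ∀ e ∈ G.edgeSet, ∀ s t : ℝ, arc e s = arc e t → s = t := by
    intro e he s t hst
    have h1 := congrArg Complex.re hst
    rw [hre, hre] at h1
    have h2 : (s - t) * (φ e.out.2 - φ e.out.1) = 0 := by linarith
    rcases mul_eq_zero.mp h2 with h | h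
    · linarith
    · exact absurd (by linarith) (hne e he)
  have hcont : ∀ e, Continuous (arc e) := by
    intro e
    have : arc e = fun t : ℝ => (((1 - t) * φ e.out.1 + t * φ e.out.2 : ℝ) : ℂ) +
        (((1 - t) * (φ e.out.1) ^ 2 + t * (φ e.out.2) ^ 2 : ℝ) : ℂ) * Complex.I := by
      funext t
      exact Complex.mk_eq_add_mul_I _ _
    rw [this]
    fun_prop
  let D : Drawing G :=
    { pos := pos
      pos_injective := fun x y h => hφ (congrArg Complex.re h)
      arc := arc
      arc_continuousOn := fun e _ => (hcont e).continuousOn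
      arc_injOn := fun e he s _ t _ hst => hinj e he s t hst
      arc_ends := by
        intro u v huv
        have h0 : arc s(u, v) 0 = pos (s(u, v)).out.1 := by
          simp only [arc, pos]; congr 1 <;> ring
        have h1 : arc s(u, v) 1 = pos (s(u, v)).out.2 := by
          simp only [arc, pos]; congr 1 <;> ring
        have he : s((s(u, v)).out.1, (s(u, v)).out.2) = s(u, v) := (s(u, v)).out_eq
        rcases Sym2.eq_iff.mp he with h | h
        · left; rw [h0, h1, h.1, h.2]; exact ⟨rfl, rfl⟩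
        · right; rw [h0, h1, h.1, h.2]; exact ⟨rfl, rfl⟩
      arc_avoids := by
        intro e he t ht w hw
        have h1 := congrArg Complex.re hw
        have h2 := congrArg Complex.im hw
        rw [him] at h2
        rw [h1] at h2
        have h3 : (pos w).re = φ w := rfl
        have h4 : (pos w).im = (φ w) ^ 2 := rfl
        rw [h3, h4] at h2
        rw [hre, h3] at h1
        have h5 : (φ w - φ e.out.1) * (φ w - φ e.out.2) = 0 := by linarith
        rcases mul_eq_zero.mp h5 with h | h
        · have h6 : t * (φ e.out.2 - φ e.out.1) = 0 := by linarith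
          rcases mul_eq_zero.mp h6 with h7 | h7
          · exact absurd h7 ht.1.ne'
          · exact hne e he (by linarith)
        · have h6 : (1 - t) * (φ e.out.2 - φ e.out.1) = 0 := by linarith
          rcases mul_eq_zero.mp h6 with h7 | h7
          · exact absurd (by linarith) ht.2.ne
          · exact hne e he (by linarith) }
  refine ⟨D, ?_⟩
  have hfin : ∀ e f : Sym2 V, e ∈ G.edgeSet → f ∈ G.edgeSet → e ≠ f →
      {z : ℂ | z ∈ arc e '' Set.Ioo (0 : ℝ) 1 ∧ z ∈ arc f '' Set.Ioo (0 : ℝ) 1}.Finite := by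
    intro e f he hf hef
    apply Set.Subsingleton.finite
    rintro z ⟨⟨s, -, hs⟩, ⟨t, -, ht⟩⟩ z' ⟨⟨s', -, hs'⟩, ⟨t', -, ht'⟩⟩
    have a1 := him e s
    have a2 := him f t
    have a3 := him e s'
    have a4 := him f t'
    rw [hs] at a1
    rw [ht] at a2
    rw [hs'] at a3
    rw [ht'] at a4
    have b1 : ((φ e.out.1 + φ e.out.2) - (φ f.out.1 + φ f.out.2)) * (z.re - z'.re) = 0 := by
      linarith
    rcases mul_eq_zero.mp b1 with h | h
    · exfalso
      have c1 : φ e.out.1 + φ e.out.2 = φ f.out.1 + φ f.out.2 := by linarith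
      have c2 : φ e.out.1 * φ e.out.2 = φ f.out.1 * φ f.out.2 := by
        rw [a1, c1] at a2; linarith
      have c3 : (φ e.out.1 - φ f.out.1) * (φ e.out.1 - φ f.out.2) = 0 := by
        linear_combination (φ e.out.1) * c1 - c2
      apply hef
      have he' : s(e.out.1, e.out.2) = e := e.out_eq
      have hf' : s(f.out.1, f.out.2) = f := f.out_eq
      rw [← he', ← hf', Sym2.eq_iff]
      rcases mul_eq_zero.mp c3 with h' | h'
      · left
        exact ⟨hφ (by linarith), hφ (by linarith)⟩
      · right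
        exact ⟨hφ (by linarith), hφ (by linarith)⟩
    · apply Complex.ext
      · linarith
      · have : z.re = z'.re := by linarith
        rw [a1, a3, this]
  have hsub : D.crossings ⊆ ⋃ p : Sym2 V × Sym2 V,
      (if p.1 ∈ G.edgeSet ∧ p.2 ∈ G.edgeSet ∧ p.1 ≠ p.2 then
        (fun z : ℂ => (s(p.1, p.2), z)) ''
        {z : ℂ | z ∈ arc p.1 '' Set.Ioo (0 : ℝ) 1 ∧ z ∈ arc p.2 '' Set.Ioo (0 : ℝ) 1} else ∅) := by
    rintro ⟨x, z⟩ ⟨e, he, f, hf, hef, hx, h1, h2⟩
    rw [Set.mem_iUnion]
    refine ⟨(e, f), ?_⟩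
    rw [if_pos ⟨he, hf, hef⟩]
    simp only at hx
    rw [hx]
    exact ⟨z, ⟨h1, h2⟩, rfl⟩
  refine Set.Finite.subset (Set.finite_iUnion fun p => ?_) hsub
  split_ifs with h
  · exact (hfin p.1 p.2 h.1 h.2.1 h.2.2).image _
  · exact Set.finite_empty

/-- The crossing number is attained. -/
theorem crossingNumber_attained {V : Type*} [Fintype V] (G : SimpleGraph V) :
    ∃ D : Drawing G, D.crossings.Finite ∧ D.crossings.ncard = crossingNumber G := by
  obtain ⟨D, hD⟩ := exists_drawing G
  exact Nat.sInf_mem (s := {n | ∃ D : Drawing G, D.crossings.Finite ∧ D.crossings.ncard = n})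
    ⟨_, D, hD, rfl⟩

/-- The biplanar crossing number is attained. -/
theorem biplanar_attained {V : Type*} [Fintype V] (G : SimpleGraph V) :
    ∃ G₁ G₂ : SimpleGraph V, G₁ ⊔ G₂ = G ∧ Disjoint G₁ G₂ ∧
      biplanarCrossingNumber G = crossingNumber G₁ + crossingNumber G₂ :=
  Nat.sInf_mem (s := {n | ∃ G₁ G₂ : SimpleGraph V, G₁ ⊔ G₂ = G ∧ Disjoint G₁ G₂ ∧
    n = crossingNumber G₁ + crossingNumber G₂}) ⟨_, G, ⊥, by simp, disjoint_bot_right, rfl⟩

end Pool.Agent.Helper770.Exist
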